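import Mathlib

/-!
# Board d3h_modules: the tent function and its antiderivatives
-/

set_option autoImplicit false

open Set

namespace Pool.Agent.H45.D3

/-- positive part, power `n + 2` -/
theorem hd_pos (n : ℕ) (x : ℝ) : HasDerivAt (fun x : ℝ => max 0 x ^ (n + 2))
    ((n + 2) * max 0 x ^ (n + 1)) x := by
  rcases lt_trichotomy x 0 with hx | hx | hx
  · have h1 : (fun x : ℝ => max 0 x ^ (n + 2)) =ᶠ[nhds x] fun _ => 0 := by
      filter_upwards [Iio_mem_nhds hx] with y hy
      rw [max_eq_left (le_of_lt hy), zero_pow (by omega)]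
    rw [max_eq_left hx.le, zero_pow (by omega), mul_zero]
    exact (hasDerivAt_const x (0 : ℝ)).congr_of_eventuallyEq h1
  · subst hx
    rw [max_self, zero_pow (by omega), mul_zero]
    have h1 : HasDerivWithinAt (fun x : ℝ => max 0 x ^ (n + 2)) 0 (Iic 0) 0 := by
      refine (hasDerivWithinAt_const (0 : ℝ) (Iic (0 : ℝ)) (0 : ℝ)).congr ?_ ?_
      · intro y hy
        rw [max_eq_left hy, zero_pow (by omega)]
      · rw [max_self, zero_pow (by omega)]
    have h2 : HasDerivWithinAt (fun x : ℝ => max 0 x ^ (n + 2)) 0 (Ici 0) 0 := by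
      have h3 : HasDerivWithinAt (fun x : ℝ => x ^ (n + 2)) 0 (Ici 0) 0 := by
        have h4 := (hasDerivAt_pow (n + 2) (0 : ℝ)).hasDerivWithinAt (s := Ici 0)
        rwa [show n + 2 - 1 = n + 1 by omega, zero_pow (by omega), mul_zero] at h4
      refine h3.congr ?_ ?_
      · intro y hy
        rw [max_eq_right hy]
      · rw [max_self]
    have h5 := h1.union h2
    rw [Iic_union_Ici] at h5
    exact hasDerivWithinAt_univ.1 h5
  · have h1 : (fun x : ℝ => max 0 x ^ (n + 2)) =ᶠ[nhds x] fun x => x ^ (n + 2) := by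
      filter_upwards [Ioi_mem_nhds hx] with y hy
      rw [max_eq_right (le_of_lt hy)]
    rw [max_eq_right hx.le]
    have h2 := (hasDerivAt_pow (n + 2) x).congr_of_eventuallyEq h1
    have h3 : (((n + 2 : ℕ) : ℝ) * x ^ (n + 2 - 1)) = (n + 2) * x ^ (n + 1) := by
      rw [show n + 2 - 1 = n + 1 by omega]
      push_cast
      ring
    rwa [h3] at h2

/-- the tent -/
noncomputable def b0 (x : ℝ) : ℝ := max 0 (1 - |x|)

/-- the antiderivative of the tent -/
noncomputable def b1 (x : ℝ) : ℝ := (max 0 (x + 1) ^ 2 - 2 * max 0 x ^ 2 + max 0 (x - 1) ^ 2) / 2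

/-- the second antiderivative of the tent -/
noncomputable def b2 (x : ℝ) : ℝ := (max 0 (x + 1) ^ 3 - 2 * max 0 x ^ 3 + max 0 (x - 1) ^ 3) / 6

theorem b0_eq (x : ℝ) : b0 x = max 0 (x + 1) - 2 * max 0 x + max 0 (x - 1) := by
  unfold b0
  rcases le_total x 0 with h | h
  · rw [abs_of_nonpos h, max_eq_left h, max_eq_left (by linarith : x - 1 ≤ 0)]
    have : 1 - -x = x + 1 := by ring
    rw [this]
    ring
  · rw [abs_of_nonneg h, max_eq_right h, max_eq_right (by linarith : 0 ≤ x + 1)]
    rcases le_total x 1 with h1 | h1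
    · rw [max_eq_right (by linarith : 0 ≤ 1 - x), max_eq_left (by linarith : x - 1 ≤ 0)]
      ring
    · rw [max_eq_left (by linarith : 1 - x ≤ 0), max_eq_right (by linarith : 0 ≤ x - 1)]
      ring

theorem b0_cont : Continuous b0 := by
  unfold b0
  fun_prop

theorem b0_nonneg (x : ℝ) : 0 ≤ b0 x := le_max_left _ _

theorem b1_hd (x : ℝ) : HasDerivAt b1 (b0 x) x := by
  have h1 : HasDerivAt (fun x : ℝ => max 0 (x + 1) ^ 2) (2 * max 0 (x + 1)) x := by
    have h := HasDerivAt.comp_add_const x 1 (hd_pos 0 (x + 1))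
    simpa using h
  have h2 : HasDerivAt (fun x : ℝ => max 0 x ^ 2) (2 * max 0 x) x := by
    simpa using hd_pos 0 x
  have h3 : HasDerivAt (fun x : ℝ => max 0 (x - 1) ^ 2) (2 * max 0 (x - 1)) x := by
    have h := HasDerivAt.comp_sub_const x 1 (hd_pos 0 (x - 1))
    simpa using h
  have h4 := ((h1.sub (h2.const_mul 2)).add h3).div_const 2
  have h5 : b0 x = (2 * max 0 (x + 1) - 2 * (2 * max 0 x) + 2 * max 0 (x - 1)) / 2 := by
    rw [b0_eq]
    ring
  rw [h5]
  exact h4

theorem b2_hd (x : ℝ) : HasDerivAt b2 (b1 x) x := by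
  have h1 : HasDerivAt (fun x : ℝ => max 0 (x + 1) ^ 3) (3 * max 0 (x + 1) ^ 2) x := by
    have h := HasDerivAt.comp_add_const x 1 (hd_pos 1 (x + 1))
    have e : (((1 : ℕ) : ℝ) + 2) = 3 := by norm_num
    rw [e] at h
    simpa using h
  have h2 : HasDerivAt (fun x : ℝ => max 0 x ^ 3) (3 * max 0 x ^ 2) x := by
    have h := hd_pos 1 x
    have e : (((1 : ℕ) : ℝ) + 2) = 3 := by norm_num
    rw [e] at h
    simpa using h
  have h3 : HasDerivAt (fun x : ℝ => max 0 (x - 1) ^ 3) (3 * max 0 (x - 1) ^ 2) x := by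
    have h := HasDerivAt.comp_sub_const x 1 (hd_pos 1 (x - 1))
    have e : (((1 : ℕ) : ℝ) + 2) = 3 := by norm_num
    rw [e] at h
    simpa using h
  have h4 := ((h1.sub (h2.const_mul 2)).add h3).div_const 6
  have h5 : b1 x = (3 * max 0 (x + 1) ^ 2 - 2 * (3 * max 0 x ^ 2) + 3 * max 0 (x - 1) ^ 2) / 6 := by
    unfold b1
    ring
  rw [h5]
  exact h4

theorem b1_left (x : ℝ) (h : x ≤ -1) : b1 x = 0 := by
  unfold b1
  rw [max_eq_left (by linarith : x + 1 ≤ 0), max_eq_left (by linarith : x ≤ 0),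
    max_eq_left (by linarith : x - 1 ≤ 0)]
  ring

theorem b2_left (x : ℝ) (h : x ≤ -1) : b2 x = 0 := by
  unfold b2
  rw [max_eq_left (by linarith : x + 1 ≤ 0), max_eq_left (by linarith : x ≤ 0),
    max_eq_left (by linarith : x - 1 ≤ 0)]
  ring

theorem b1_right (x : ℝ) (h : 1 ≤ x) : b1 x = 1 := by
  unfold b1
  rw [max_eq_right (by linarith : 0 ≤ x + 1), max_eq_right (by linarith : 0 ≤ x),
    max_eq_right (by linarith : 0 ≤ x - 1)]
  ring

theorem b2_right (x : ℝ) (h : 1 ≤ x) : b2 x = x := by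
  unfold b2
  rw [max_eq_right (by linarith : 0 ≤ x + 1), max_eq_right (by linarith : 0 ≤ x),
    max_eq_right (by linarith : 0 ≤ x - 1)]
  ring

theorem b1_mono : Monotone b1 := by
  refine monotone_of_deriv_nonneg (fun x => (b1_hd x).differentiableAt) fun x => ?_
  rw [(b1_hd x).deriv]
  exact b0_nonneg x

theorem b1_nonneg (x : ℝ) : 0 ≤ b1 x := by
  have h := b1_mono (min_le_left x (-1))
  rwa [b1_left _ (min_le_right x (-1))] at h

theorem b1_le_one (x : ℝ) : b1 x ≤ 1 := by
  have h := b1_mono (le_max_left x 1)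
  rwa [b1_right _ (le_max_right x 1)] at h

theorem b2_mono : Monotone b2 := by
  refine monotone_of_deriv_nonneg (fun x => (b2_hd x).differentiableAt) fun x => ?_
  rw [(b2_hd x).deriv]
  exact b1_nonneg x

theorem b2_nonneg (x : ℝ) : 0 ≤ b2 x := by
  have h := b2_mono (min_le_left x (-1))
  rwa [b2_left _ (min_le_right x (-1))] at h

theorem b2_le (x : ℝ) : b2 x ≤ (x + 1) * b1 x := by
  have hd : ∀ x, HasDerivAt (fun x => (x + 1) * b1 x - b2 x) ((x + 1) * b0 x) x := by
    intro x
    have h1 := (((hasDerivAt_id x).add_const 1).mul (b1_hd x)).sub (b2_hd x)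
    have h2 : (x + 1) * b0 x = 1 * b1 x + (id x + 1) * b0 x - b1 x := by
      simp only [id]
      ring
    rw [h2]
    exact h1
  have hm : Monotone (fun x => (x + 1) * b1 x - b2 x) := by
    refine monotone_of_deriv_nonneg (fun x => (hd x).differentiableAt) fun x => ?_
    rw [(hd x).deriv]
    rcases le_total x (-1) with h | h
    · have : b0 x = 0 := by
        unfold b0
        refine max_eq_left ?_
        rw [abs_of_nonpos (by linarith)]
        linarith
      rw [this, mul_zero]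
    · exact mul_nonneg (by linarith) (b0_nonneg x)
  have h := hm (min_le_left x (-1))
  simp only at h
  rw [b1_left _ (min_le_right x (-1)), b2_left _ (min_le_right x (-1)), mul_zero, sub_zero] at h
  linarith

end Pool.Agent.H45.D3
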