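import Pool.Agent.H87.D3.Targets2
import Pool.Agent.H45.D3.TNT

/-!
# Board d3h_modules, row BMP: windows as derivatives
-/

set_option autoImplicit false

open Set

namespace Pool.Agent.H45.D3

open Pool.Agent.H87.D3

/-- the antiderivative of a window -/
noncomputable def B1 (z₀ r z : ℝ) : ℝ := b1 ((z - z₀) / r)

/-- the second antiderivative of a window -/
noncomputable def B2 (z₀ r z : ℝ) : ℝ := r * b2 ((z - z₀) / r)

theorem bw_eq (z₀ r z : ℝ) : bw z₀ r z = r⁻¹ * b0 ((z - z₀) / r) := rfl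

theorem bw_cont (z₀ r : ℝ) : Continuous (bw z₀ r) := by
  unfold bw
  fun_prop

theorem B1_hd (z₀ r z : ℝ) : HasDerivAt (B1 z₀ r) (bw z₀ r z) z := by
  have h1 : HasDerivAt (fun z : ℝ => (z - z₀) / r) (1 / r) z :=
    ((hasDerivAt_id z).sub_const z₀).div_const r
  have h2 := (b1_hd ((z - z₀) / r)).comp z h1
  rw [bw_eq, mul_comm, ← one_div]
  exact h2

theorem B2_hd (z₀ r z : ℝ) (hr : 0 < r) : HasDerivAt (B2 z₀ r) (B1 z₀ r z) z := by
  have h1 : HasDerivAt (fun z : ℝ => (z - z₀) / r) (1 / r) z :=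
    ((hasDerivAt_id z).sub_const z₀).div_const r
  have h2 := ((b2_hd ((z - z₀) / r)).comp z h1).const_mul r
  have h3 : r * (b1 ((z - z₀) / r) * (1 / r)) = B1 z₀ r z := by
    unfold B1
    field_simp
  rw [h3] at h2
  exact h2

theorem B1_left (z₀ r z : ℝ) (hr : 0 < r) (h : z ≤ z₀ - r) : B1 z₀ r z = 0 := by
  unfold B1
  refine b1_left _ ?_
  rw [div_le_iff₀ hr]
  linarith

theorem B2_left (z₀ r z : ℝ) (hr : 0 < r) (h : z ≤ z₀ - r) : B2 z₀ r z = 0 := by
  unfold B2
  rw [b2_left _ (by rw [div_le_iff₀ hr]; linarith), mul_zero]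

theorem B1_right (z₀ r z : ℝ) (hr : 0 < r) (h : z₀ + r ≤ z) : B1 z₀ r z = 1 := by
  unfold B1
  refine b1_right _ ?_
  rw [le_div_iff₀ hr]
  linarith

theorem B2_right (z₀ r z : ℝ) (hr : 0 < r) (h : z₀ + r ≤ z) : B2 z₀ r z = z - z₀ := by
  unfold B2
  rw [b2_right _ (by rw [le_div_iff₀ hr]; linarith)]
  field_simp

theorem B1_nonneg (z₀ r z : ℝ) : 0 ≤ B1 z₀ r z := b1_nonneg _

theorem B1_le_one (z₀ r z : ℝ) : B1 z₀ r z ≤ 1 := b1_le_one _

theorem B2_nonneg (z₀ r z : ℝ) (hr : 0 < r) : 0 ≤ B2 z₀ r z := mul_nonneg hr.le (b2_nonneg _)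

theorem B2_le (z₀ r z : ℝ) (hr : 0 < r) : B2 z₀ r z ≤ (z - z₀ + r) * B1 z₀ r z := by
  have h := mul_le_mul_of_nonneg_left (b2_le ((z - z₀) / r)) hr.le
  have h1 : r * (((z - z₀) / r + 1) * b1 ((z - z₀) / r)) = (z - z₀ + r) * B1 z₀ r z := by
    unfold B1
    field_simp
  rw [h1] at h
  exact h

theorem pf_BMP : T_BMP := by
  intro Z z₀ r hZ hZ1 hr hzr
  have hz := abs_le.1 (by linarith : |z₀| ≤ Z - r)
  obtain ⟨hz1, hz2⟩ := hz
  have h16 : (0 : ℝ) < 1 / 16 := by norm_num
  refine ⟨?_, ?_, ?_⟩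
  · -- the first function
    have hd : ∀ z, HasDerivAt (fun z => B1 z₀ r z - B1 (1 / 4) (1 / 16) z)
        (bw z₀ r z - bw (1 / 4) (1 / 16) z) z := fun z =>
      (B1_hd z₀ r z).sub (B1_hd (1 / 4) (1 / 16) z)
    have hde : deriv (fun z => B1 z₀ r z - B1 (1 / 4) (1 / 16) z) =
        fun z => bw z₀ r z - bw (1 / 4) (1 / 16) z := funext fun z => (hd z).deriv
    refine ⟨fun z => B1 z₀ r z - B1 (1 / 4) (1 / 16) z, ?_, ?_, ?_, fun z => (hd z).deriv⟩
    · rw [contDiff_one_iff_deriv, hde]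
      exact ⟨fun z => (hd z).differentiableAt, (bw_cont _ _).sub (bw_cont _ _)⟩
    · intro z hzZ
      rcases le_abs.1 hzZ with h | h
      · simp only
        rw [B1_right z₀ r z hr (by linarith), B1_right _ _ z h16 (by linarith), sub_self]
      · simp only
        rw [B1_left z₀ r z hr (by linarith), B1_left _ _ z h16 (by linarith), sub_self]
    · intro z
      have a1 := B1_nonneg z₀ r z
      have a2 := B1_le_one z₀ r z
      have a3 := B1_nonneg (1 / 4) (1 / 16) z
      have a4 := B1_le_one (1 / 4) (1 / 16) z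
      simp only
      rw [abs_le]
      constructor <;> linarith
  · -- the second function
    obtain ⟨p, hp⟩ : ∃ p : ℝ, p = 1 / 2 + 2 * z₀ := ⟨_, rfl⟩
    obtain ⟨q, hq⟩ : ∃ q : ℝ, q = 1 / 2 - 2 * z₀ := ⟨_, rfl⟩
    rw [← hp, ← hq]
    have hd2 : ∀ z, HasDerivAt (fun z => B2 z₀ r z - p * B2 (1 / 4) (1 / 16) z -
        q * B2 (-(1 / 4)) (1 / 16) z) (B1 z₀ r z - p * B1 (1 / 4) (1 / 16) z -
        q * B1 (-(1 / 4)) (1 / 16) z) z := fun z =>
      ((B2_hd z₀ r z hr).sub ((B2_hd (1 / 4) (1 / 16) z h16).const_mul p)).sub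
        ((B2_hd (-(1 / 4)) (1 / 16) z h16).const_mul q)
    have hd1 : ∀ z, HasDerivAt (fun z => B1 z₀ r z - p * B1 (1 / 4) (1 / 16) z -
        q * B1 (-(1 / 4)) (1 / 16) z) (bw z₀ r z - p * bw (1 / 4) (1 / 16) z -
        q * bw (-(1 / 4)) (1 / 16) z) z := fun z =>
      ((B1_hd z₀ r z).sub ((B1_hd (1 / 4) (1 / 16) z).const_mul p)).sub
        ((B1_hd (-(1 / 4)) (1 / 16) z).const_mul q)
    have hde2 : deriv (fun z => B2 z₀ r z - p * B2 (1 / 4) (1 / 16) z -
        q * B2 (-(1 / 4)) (1 / 16) z) = fun z => B1 z₀ r z - p * B1 (1 / 4) (1 / 16) z -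
        q * B1 (-(1 / 4)) (1 / 16) z := funext fun z => (hd2 z).deriv
    have hde1 : deriv (fun z => B1 z₀ r z - p * B1 (1 / 4) (1 / 16) z -
        q * B1 (-(1 / 4)) (1 / 16) z) = fun z => bw z₀ r z - p * bw (1 / 4) (1 / 16) z -
        q * bw (-(1 / 4)) (1 / 16) z := funext fun z => (hd1 z).deriv
    have hb : ∀ z, |B1 z₀ r z - p * B1 (1 / 4) (1 / 16) z - q * B1 (-(1 / 4)) (1 / 16) z| ≤ 5 := by
      intro z
      have a1 := B1_nonneg z₀ r z
      have a2 := B1_le_one z₀ r z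
      have a3 := B1_nonneg (1 / 4) (1 / 16) z
      have a4 := B1_le_one (1 / 4) (1 / 16) z
      have a5 := B1_nonneg (-(1 / 4)) (1 / 16) z
      have a6 := B1_le_one (-(1 / 4)) (1 / 16) z
      have c1 : |p| * |B1 (1 / 4) (1 / 16) z| ≤ |p| * 1 :=
        mul_le_mul_of_nonneg_left (by rw [abs_of_nonneg a3]; exact a4) (abs_nonneg _)
      have c2 : |q| * |B1 (-(1 / 4)) (1 / 16) z| ≤ |q| * 1 :=
        mul_le_mul_of_nonneg_left (by rw [abs_of_nonneg a5]; exact a6) (abs_nonneg _)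
      have c3 : |p| + |q| ≤ 4 := by
        rw [hp, hq]
        rcases abs_cases (1 / 2 + 2 * z₀) with ⟨h1, -⟩ | ⟨h1, -⟩ <;>
          rcases abs_cases (1 / 2 - 2 * z₀) with ⟨h2, -⟩ | ⟨h2, -⟩ <;> rw [h1, h2] <;> linarith
      have c4 : |B1 z₀ r z| ≤ 1 := by rw [abs_of_nonneg a1]; exact a2
      calc |B1 z₀ r z - p * B1 (1 / 4) (1 / 16) z - q * B1 (-(1 / 4)) (1 / 16) z|
          ≤ |B1 z₀ r z - p * B1 (1 / 4) (1 / 16) z| + |q * B1 (-(1 / 4)) (1 / 16) z| :=
            abs_sub _ _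
        _ ≤ |B1 z₀ r z| + |p * B1 (1 / 4) (1 / 16) z| + |q * B1 (-(1 / 4)) (1 / 16) z| :=
            add_le_add_left (abs_sub _ _) _
        _ ≤ 5 := by
            rw [abs_mul, abs_mul]
            linarith
    have hzero : ∀ z, Z ≤ |z| → B2 z₀ r z - p * B2 (1 / 4) (1 / 16) z -
        q * B2 (-(1 / 4)) (1 / 16) z = 0 := by
      intro z hzZ
      rcases le_abs.1 hzZ with h | h
      · rw [B2_right z₀ r z hr (by linarith), B2_right _ _ z h16 (by linarith),
          B2_right _ _ z h16 (by linarith), hp, hq]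
        ring
      · rw [B2_left z₀ r z hr (by linarith), B2_left _ _ z h16 (by linarith),
          B2_left _ _ z h16 (by linarith)]
        ring
    refine ⟨fun z => B2 z₀ r z - p * B2 (1 / 4) (1 / 16) z - q * B2 (-(1 / 4)) (1 / 16) z,
      ?_, hzero, ?_, ?_, ?_⟩
    · have h1 : ContDiff ℝ 1 (fun z => B1 z₀ r z - p * B1 (1 / 4) (1 / 16) z -
          q * B1 (-(1 / 4)) (1 / 16) z) := by
        rw [contDiff_one_iff_deriv, hde1]
        exact ⟨fun z => (hd1 z).differentiableAt,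
          ((bw_cont _ _).sub ((bw_cont _ _).const_mul p)).sub ((bw_cont _ _).const_mul q)⟩
      have h2 : ContDiff ℝ (1 + 1) (fun z => B2 z₀ r z - p * B2 (1 / 4) (1 / 16) z -
          q * B2 (-(1 / 4)) (1 / 16) z) := by
        rw [contDiff_succ_iff_deriv, hde2]
        exact ⟨fun z => (hd2 z).differentiableAt, fun h => by simp at h, h1⟩
      rwa [one_add_one_eq_two] at h2
    · intro z
      show |B2 z₀ r z - p * B2 (1 / 4) (1 / 16) z - q * B2 (-(1 / 4)) (1 / 16) z| ≤ 10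
      rcases le_or_gt Z |z| with h | h
      · rw [hzero z h, abs_zero]
        norm_num
      · have hL := Convex.norm_image_sub_le_of_norm_hasDerivWithin_le (s := univ)
          (f := fun z => B2 z₀ r z - p * B2 (1 / 4) (1 / 16) z - q * B2 (-(1 / 4)) (1 / 16) z)
          (C := 5) (x := -Z) (y := z) (fun z _ => (hd2 z).hasDerivWithinAt)
          (fun z _ => by rw [Real.norm_eq_abs]; exact hb z) convex_univ (mem_univ _) (mem_univ _)
        rw [hzero (-Z) (by rw [abs_neg]; exact le_abs_self Z), sub_zero, Real.norm_eq_abs,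
          Real.norm_eq_abs] at hL
        have h1 := abs_lt.1 h
        have h2 : |z - -Z| ≤ 2 := by
          rw [abs_le]
          constructor <;> linarith
        linarith
    · intro z
      rw [(hd2 z).deriv]
      linarith [hb z]
    · intro z
      rw [hde2, (hd1 z).deriv]
  · -- the third function
    have hd : ∀ z, HasDerivAt (fun z => (z - z₀) * B1 z₀ r z - B2 z₀ r z)
        ((z - z₀) * bw z₀ r z) z := by
      intro z
      have h1 := (((hasDerivAt_id z).sub_const z₀).mul (B1_hd z₀ r z)).sub (B2_hd z₀ r z hr)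
      have h2 : (z - z₀) * bw z₀ r z =
          1 * B1 z₀ r z + (id z - z₀) * bw z₀ r z - B1 z₀ r z := by
        simp only [id]
        ring
      rw [h2]
      exact h1
    have hde : deriv (fun z => (z - z₀) * B1 z₀ r z - B2 z₀ r z) =
        fun z => (z - z₀) * bw z₀ r z := funext fun z => (hd z).deriv
    have hR : ∀ z, z₀ + r ≤ z → (z - z₀) * B1 z₀ r z - B2 z₀ r z = 0 := by
      intro z h
      rw [B1_right z₀ r z hr h, B2_right z₀ r z hr h]
      ring
    refine ⟨fun z => (z - z₀) * B1 z₀ r z - B2 z₀ r z, ?_, ?_, ?_, fun z => (hd z).deriv⟩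
    · rw [contDiff_one_iff_deriv, hde]
      exact ⟨fun z => (hd z).differentiableAt,
        (continuous_id.sub continuous_const).mul (bw_cont _ _)⟩
    · intro z hzZ
      rcases le_abs.1 hzZ with h | h
      · exact hR z (by linarith)
      · simp only
        rw [B1_left z₀ r z hr (by linarith), B2_left z₀ r z hr (by linarith)]
        ring
    · intro z
      simp only
      rcases le_total z (z₀ + r) with h | h
      · have a1 := B1_nonneg z₀ r z
        have a2 := B1_le_one z₀ r z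
        have a3 := B2_nonneg z₀ r z hr
        have a4 := B2_le z₀ r z hr
        rw [abs_le]
        constructor
        · nlinarith
        · nlinarith
      · rw [hR z h, abs_zero]
        exact hr.le

end Pool.Agent.H45.D3
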