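import Pool.Agent.H87.D3.Targets
import Pool.Agent.H45.D3.BMP

/-!
# Board d3h_modules, row PRF: the logarithmic profile
-/

set_option autoImplicit false

open Set Filter Topology

namespace Pool.Agent.H45.D3

open Pool.Agent.H87.D3

theorem bw_nonneg (z₀ r z : ℝ) (hr : 0 < r) : 0 ≤ bw z₀ r z :=
  mul_nonneg (inv_nonneg.2 hr.le) (le_max_left _ _)

theorem bw_le (z₀ r z : ℝ) (hr : 0 < r) : bw z₀ r z ≤ r⁻¹ := by
  unfold bw
  have h1 : max 0 (1 - |(z - z₀) / r|) ≤ 1 :=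
    max_le zero_le_one (by linarith [abs_nonneg ((z - z₀) / r)])
  calc r⁻¹ * max 0 (1 - |(z - z₀) / r|) ≤ r⁻¹ * 1 :=
        mul_le_mul_of_nonneg_left h1 (inv_nonneg.2 hr.le)
    _ = r⁻¹ := mul_one _

theorem bw_zero (z₀ r z : ℝ) (hr : 0 < r) (h : z₀ + r ≤ z) : bw z₀ r z = 0 := by
  unfold bw
  have h1 : 1 ≤ (z - z₀) / r := by
    rw [le_div_iff₀ hr]
    linarith
  rw [max_eq_left (by linarith [le_abs_self ((z - z₀) / r)]), mul_zero]

theorem bw_mid (v : ℝ) (h : |v| ≤ 1 / 7) : 1 ≤ bw 0 (1 / 5) v := by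
  unfold bw
  have h1 : |(v - 0) / (1 / 5)| = 5 * |v| := by
    rw [sub_zero, abs_div, abs_of_pos (by norm_num : (0 : ℝ) < 1 / 5)]
    ring
  rw [h1, max_eq_right (by linarith)]
  norm_num
  linarith

theorem pf_PRF : T_PRF := by
  intro δ hδ
  obtain ⟨ρ, hρ⟩ : ∃ ρ : ℝ, ρ = 1 / δ + 1 := ⟨_, rfl⟩
  have hd0 := one_div_pos.2 hδ
  have hρ1 : 1 ≤ ρ := by
    rw [hρ]
    linarith
  have hρ0 : 0 < ρ := by linarith
  have hρδ : ρ⁻¹ ≤ δ := by
    rw [inv_le_comm₀ hρ0 hδ, hρ, one_div]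
    linarith
  have h5 : (0 : ℝ) < 1 / 5 := by norm_num
  obtain ⟨F, hF⟩ : ∃ F : ℝ → ℝ, F = fun v => B1 (-(1 / 5) - ρ) ρ v - B1 0 (1 / 5) v := ⟨_, rfl⟩
  obtain ⟨f, hf⟩ : ∃ f : ℝ → ℝ, f = fun v => bw (-(1 / 5) - ρ) ρ v - bw 0 (1 / 5) v := ⟨_, rfl⟩
  have hFl : ∀ v, v ≤ -(1 / 5 + 2 * ρ) → F v = 0 := by
    intro v hv
    rw [hF]
    simp only
    rw [B1_left _ _ v hρ0 (by linarith), B1_left _ _ v h5 (by linarith), sub_zero]
  have hFr : ∀ v, 1 / 5 ≤ v → F v = 0 := by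
    intro v hv
    rw [hF]
    simp only
    rw [B1_right _ _ v hρ0 (by linarith), B1_right _ _ v h5 (by linarith), sub_self]
  have hF0 : ∀ v, 0 ≤ F v := by
    intro v
    rw [hF]
    simp only
    rcases le_total v (-(1 / 5)) with h | h
    · rw [B1_left 0 _ v h5 (by linarith), sub_zero]
      exact B1_nonneg _ _ _
    · rw [B1_right _ _ v hρ0 (by linarith)]
      linarith [B1_le_one 0 (1 / 5) v]
  have hF1 : ∀ v, F v ≤ 1 := by
    intro v
    rw [hF]
    simp only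
    linarith [B1_le_one (-(1 / 5) - ρ) ρ v, B1_nonneg 0 (1 / 5) v]
  have hFd : ∀ v, HasDerivAt F (f v) v := by
    intro v
    rw [hF, hf]
    exact (B1_hd _ _ v).sub (B1_hd _ _ v)
  have hfc : Continuous f := by
    rw [hf]
    exact (bw_cont _ _).sub (bw_cont _ _)
  have hFC : ContDiff ℝ 1 F := by
    have hde : deriv F = f := funext fun v => (hFd v).deriv
    rw [contDiff_one_iff_deriv, hde]
    exact ⟨fun v => (hFd v).differentiableAt, hfc⟩
  have hf1 : ∀ v, f v ≤ δ := by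
    intro v
    rw [hf]
    simp only
    linarith [bw_le (-(1 / 5) - ρ) ρ v hρ0, bw_nonneg 0 (1 / 5) v h5]
  have hf2 : ∀ v, -5 ≤ f v := by
    intro v
    rw [hf]
    simp only
    have h1 := bw_le 0 (1 / 5) v h5
    have h2 : ((1 : ℝ) / 5)⁻¹ = 5 := by norm_num
    linarith [bw_nonneg (-(1 / 5) - ρ) ρ v hρ0]
  have hf3 : ∀ v, |v| ≤ 1 / 7 → f v ≤ -1 := by
    intro v hv
    rw [hf]
    simp only
    have h1 := bw_mid v hv
    rw [bw_zero (-(1 / 5) - ρ) ρ v hρ0 (by linarith [(abs_le.1 hv).1])]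
    linarith
  -- the scale
  obtain ⟨M, hM⟩ : ∃ M : ℝ, M = Real.exp (1 / 5 + 2 * ρ) := ⟨_, rfl⟩
  have hM2 : 2 ≤ M := by
    rw [hM]
    linarith [Real.add_one_le_exp (1 / 5 + 2 * ρ)]
  have hM0 : 0 < M := by linarith
  have hM1 : 0 < 1 / M := one_div_pos.2 hM0
  have hMl : Real.log (1 / M) = -(1 / 5 + 2 * ρ) := by
    rw [one_div, Real.log_inv, hM, Real.log_exp]
  obtain ⟨η, hη⟩ : ∃ η : ℝ → ℝ, η = fun s => if s ≤ 0 then 0 else F (Real.log s) := ⟨_, rfl⟩
  have hη0 : ∀ s, s ≤ 1 / M → η s = 0 := by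
    intro s hs
    rw [hη]
    simp only
    split_ifs with h
    · rfl
    · push Not at h
      refine hFl _ ?_
      rw [← hMl]
      exact Real.log_le_log h hs
  have hηp : ∀ s, 0 < s → η s = F (Real.log s) := by
    intro s hs
    rw [hη]
    exact if_neg (not_le.2 hs)
  have hev0 : ∀ s, s < 1 / M → η =ᶠ[𝓝 s] fun _ => (0 : ℝ) := fun s hs =>
    (eventually_lt_nhds hs).mono fun t ht => hη0 t ht.le
  have hevp : ∀ s, 0 < s → η =ᶠ[𝓝 s] fun t => F (Real.log t) := fun s hs =>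
    (eventually_gt_nhds hs).mono fun t ht => hηp t ht
  have hdp : ∀ s, 0 < s → s * deriv η s = f (Real.log s) := by
    intro s hs
    have h1 : HasDerivAt (fun t => F (Real.log t)) (f (Real.log s) * s⁻¹) s :=
      (hFd (Real.log s)).comp s (Real.hasDerivAt_log hs.ne')
    rw [(hevp s hs).deriv_eq, h1.deriv]
    field_simp
  have hd0' : ∀ s, s ≤ 0 → s * deriv η s = 0 := by
    intro s hs
    rw [(hev0 s (by linarith)).deriv_eq, deriv_const, mul_zero]
  refine ⟨M, 5, η, hM2, by norm_num, ?_, ?_, hη0, ?_, ?_, ?_, ?_⟩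
  · rw [contDiff_iff_contDiffAt]
    intro s
    rcases lt_or_ge s (1 / M) with h | h
    · exact contDiffAt_const.congr_of_eventuallyEq (hev0 s h)
    · have hs : 0 < s := by linarith
      exact ((hFC.contDiffAt).comp s (Real.contDiffAt_log.2 hs.ne')).congr_of_eventuallyEq
        (hevp s hs)
  · intro s
    rcases le_or_gt s 0 with h | h
    · rw [hη0 s (by linarith)]
      norm_num
    · rw [hηp s h]
      exact ⟨hF0 _, by linarith [hF1 (Real.log s)]⟩
  · intro s hs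
    rw [hηp s (by linarith)]
    refine hFr _ ?_
    have h1 := Real.one_sub_inv_le_log_of_pos (by linarith : 0 < s)
    have h2 : s⁻¹ ≤ 4 / 5 := by
      rw [inv_le_comm₀ (by linarith) (by norm_num)]
      linarith
    linarith
  · intro s
    rcases le_or_gt s 0 with h | h
    · rw [hd0' s h]
      exact hδ.le
    · rw [hdp s h]
      exact hf1 _
  · intro s
    rcases le_or_gt s 0 with h | h
    · rw [hd0' s h]
      norm_num
    · rw [hdp s h]
      exact hf2 _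
  · rintro s ⟨hs1, hs2⟩
    have hs : 0 < s := by linarith
    rw [hdp s hs]
    refine hf3 _ ?_
    have h1 := Real.one_sub_inv_le_log_of_pos hs
    have h2 := Real.log_le_sub_one_of_pos hs
    have h3 : s⁻¹ ≤ 8 / 7 := by
      rw [inv_le_comm₀ hs (by norm_num)]
      linarith
    rw [abs_le]
    constructor <;> linarith

end Pool.Agent.H45.D3
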