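import Pool.Agent.H45.D3.TRC

/-!
# Board d3n_modules, row CIR: lattice points near a circle
-/

set_option autoImplicit false

open Set

namespace Pool.Agent.H45.D3

open Pool.Agent.H83.G Pool.Agent.H81.D3
open Pool.Agent.H22.G4 (nv)
open scoped RealInnerProductSpace

/-- the gradient of the quadratic form -/
noncomputable def gq (V : Z 2) (η : E 2) (i : Fin 2) : ℝ := V.2.1 i + 2 * V.2.2 * η i

theorem inner2 (a b : E 2) : ⟪a, b⟫ = a 0 * b 0 + a 1 * b 1 := by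
  rw [PiLp.inner_apply, Fin.sum_univ_two]
  simp only [RCLike.inner_apply, conj_trivial]
  ring

theorem nsq2 (a : E 2) : ‖a‖ ^ 2 = a 0 ^ 2 + a 1 ^ 2 := by
  rw [← real_inner_self_eq_norm_sq, inner2]
  ring

theorem co_le2 (a : E 2) (i : Fin 2) : |a i| ≤ ‖a‖ := by
  rw [← Real.norm_eq_abs]
  exact PiLp.norm_apply_le a i

theorem gq_rel (V : Z 2) (η η' : E 2) (h : η ∈ Cz V) (h' : η' ∈ Cz V) :
    (gq V η 0 + gq V η' 0) * (η 0 - η' 0) + (gq V η 1 + gq V η' 1) * (η 1 - η' 1) = 0 := by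
  rw [mem_Cz, inner2, nsq2] at h h'
  unfold gq
  linear_combination 2 * h - 2 * h'

theorem gq_zero (V : Z 2) (hV : ‖V‖ = 1) (η η' : E 2) (h : η ∈ Cz V)
    (h0 : gq V η 0 = 0) (h1 : gq V η 1 = 0) (h0' : gq V η' 0 = 0) (h1' : gq V η' 1 = 0) :
    η 0 = η' 0 ∧ η 1 = η' 1 := by
  unfold gq at h0 h1 h0' h1'
  by_cases hb : V.2.2 = 0
  · exfalso
    rw [hb] at h0 h1
    have e0 : V.2.1 0 = 0 := by linarith
    have e1 : V.2.1 1 = 0 := by linarith
    have e2 : V.2.1 = 0 := by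
      ext i
      fin_cases i
      · exact e0
      · exact e1
    rw [mem_Cz, inner2, e0, e1, hb] at h
    have e3 : V.1 = 0 := by linarith
    have e4 : V = 0 := Prod.ext e3 (Prod.ext e2 hb)
    rw [e4, norm_zero] at hV
    exact zero_ne_one hV
  · constructor
    · have e : 2 * V.2.2 * (η 0 - η' 0) = 0 := by linarith
      rcases mul_eq_zero.1 e with h2 | h2
      · exact absurd (by linarith : V.2.2 = 0) hb
      · linarith
    · have e : 2 * V.2.2 * (η 1 - η' 1) = 0 := by linarith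
      rcases mul_eq_zero.1 e with h2 | h2
      · exact absurd (by linarith : V.2.2 = 0) hb
      · linarith

/-- the slope bound; `i` is the coordinate of the columns, `j` the other one -/
theorem slope (a b a' b' u v : ℝ) (h : (a + a') * u + (b + b') * v = 0) (ha : |a| ≤ |b|)
    (ha' : |a'| ≤ |b'|) (hs : (0 ≤ b ∧ 0 ≤ b') ∨ (b ≤ 0 ∧ b' ≤ 0)) :
    |v| ≤ |u| ∨ (a = 0 ∧ b = 0 ∧ a' = 0 ∧ b' = 0) := by
  have h1 : |b + b'| = |b| + |b'| := by
    rcases hs with ⟨h1, h2⟩ | ⟨h1, h2⟩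
    · rw [abs_of_nonneg h1, abs_of_nonneg h2, abs_of_nonneg (by linarith)]
    · rw [abs_of_nonpos h1, abs_of_nonpos h2, abs_of_nonpos (by linarith)]
      ring
  by_cases h0 : |b| + |b'| = 0
  · right
    have e1 : |b| = 0 := le_antisymm (by linarith [abs_nonneg b']) (abs_nonneg b)
    have e2 : |b'| = 0 := le_antisymm (by linarith [abs_nonneg b]) (abs_nonneg b')
    have e3 : |a| = 0 := le_antisymm (by linarith) (abs_nonneg a)
    have e4 : |a'| = 0 := le_antisymm (by linarith) (abs_nonneg a')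
    exact ⟨abs_eq_zero.1 e3, abs_eq_zero.1 e1, abs_eq_zero.1 e4, abs_eq_zero.1 e2⟩
  · left
    have hp : 0 < |b| + |b'| := lt_of_le_of_ne (by positivity) (Ne.symm h0)
    have h2 : (b + b') * v = -((a + a') * u) := by linarith
    have h3 : |b + b'| * |v| = |a + a'| * |u| := by
      rw [← abs_mul, ← abs_mul, h2, abs_neg]
    have h4 : |a + a'| * |u| ≤ (|b| + |b'|) * |u| :=
      mul_le_mul_of_nonneg_right ((abs_add_le a a').trans (by linarith)) (abs_nonneg _)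
    rw [h1] at h3
    exact le_of_mul_le_mul_left (by linarith) hp

theorem slope2 (V : Z 2) (hV : ‖V‖ = 1) (η η' : E 2) (h : η ∈ Cz V) (h' : η' ∈ Cz V)
    (i j : Fin 2) (hij : (i = 0 ∧ j = 1) ∨ (i = 1 ∧ j = 0)) (ha : |gq V η i| ≤ |gq V η j|)
    (ha' : |gq V η' i| ≤ |gq V η' j|)
    (hs : (0 ≤ gq V η j ∧ 0 ≤ gq V η' j) ∨ (gq V η j ≤ 0 ∧ gq V η' j ≤ 0)) :
    |η j - η' j| ≤ |η i - η' i| := by
  have hr := gq_rel V η η' h h'
  have hr' : (gq V η i + gq V η' i) * (η i - η' i) + (gq V η j + gq V η' j) * (η j - η' j) = 0 := by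
    rcases hij with ⟨rfl, rfl⟩ | ⟨rfl, rfl⟩
    · exact hr
    · linarith
  rcases slope _ _ _ _ _ _ hr' ha ha' hs with h1 | ⟨h1, h2, h3, h4⟩
  · exact h1
  · have h5 : η 0 = η' 0 ∧ η 1 = η' 1 := by
      rcases hij with ⟨rfl, rfl⟩ | ⟨rfl, rfl⟩
      · exact gq_zero V hV η η' h h1 h2 h3 h4
      · exact gq_zero V hV η η' h h2 h1 h4 h3
    have h6 : η j - η' j = 0 := by
      rcases hij with ⟨rfl, rfl⟩ | ⟨rfl, rfl⟩
      · linarith [h5.2]
      · linarith [h5.1]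
    rw [h6, abs_zero]
    exact abs_nonneg _

theorem ctr_app (K : ℝ) (k : Fin 2 → ℤ) (i : Fin 2) :
    (ctr K⁻¹ k : E 2) i = (k i : ℝ) / (3 * K) := by
  unfold ctr
  show K⁻¹ / (((2 : ℕ) : ℝ) + 1) * (k i : ℝ) = _
  push_cast
  rw [show (2 : ℝ) + 1 = 3 by norm_num, inv_eq_one_div, div_div, mul_comm K 3]
  ring

theorem int_count (a b : ℝ) (hab : a ≤ b) (S : Finset ℤ) (hS : ∀ n ∈ S, a ≤ n ∧ (n : ℝ) ≤ b) :
    (S.card : ℝ) ≤ b - a + 1 := by
  have h1 : S ⊆ Finset.Icc ⌈a⌉ ⌊b⌋ := by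
    intro n hn
    rw [Finset.mem_Icc]
    exact ⟨Int.ceil_le.2 (hS n hn).1, Int.le_floor.2 (hS n hn).2⟩
  have h2 := Finset.card_le_card h1
  have h3 : ⌈a⌉ ≤ ⌊b⌋ + 1 := by
    rw [Int.ceil_le]
    push_cast
    linarith [Int.lt_floor_add_one b]
  have h4 := Int.card_Icc_of_le ⌈a⌉ ⌊b⌋ h3
  have h5 : ((Finset.Icc ⌈a⌉ ⌊b⌋).card : ℝ) = (⌊b⌋ : ℝ) + 1 - (⌈a⌉ : ℝ) := by
    exact_mod_cast h4
  have h6 : (S.card : ℝ) ≤ ((Finset.Icc ⌈a⌉ ⌊b⌋).card : ℝ) := by exact_mod_cast h2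
  have h7 := Int.floor_le b
  have h8 := Int.le_ceil a
  linarith

theorem cls_count (K r : ℝ) (V : Z 2) (x : E 2) (J : Finset (Fin 2 → ℤ)) (hK : 1 ≤ K) (hr : 0 ≤ r)
    (hV : ‖V‖ = 1) (η : (Fin 2 → ℤ) → E 2) (hJ : ∀ k ∈ J, ‖ctr K⁻¹ k - x‖ ≤ r)
    (hη : ∀ k ∈ J, η k ∈ Cz V ∧ ‖ctr K⁻¹ k - η k‖ ≤ 3 / K)
    (i j : Fin 2) (hij : (i = 0 ∧ j = 1) ∨ (i = 1 ∧ j = 0))
    (hc : ∀ k ∈ J, |gq V (η k) i| ≤ |gq V (η k) j|)
    (hs : (∀ k ∈ J, 0 ≤ gq V (η k) j) ∨ (∀ k ∈ J, gq V (η k) j ≤ 0)) :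
    (J.card : ℝ) ≤ 73 * (6 * r * K + 1) := by
  classical
  have hK0 : 0 < K := by linarith
  have hfib : ∀ b ∈ J.image (fun k => k i), (J.filter fun k => k i = b).card ≤ 73 := by
    intro b hb
    obtain ⟨k₀, hk₀, hb0⟩ := Finset.mem_image.1 hb
    have hinj : ((J.filter fun k => k i = b).image fun k => k j).card =
        (J.filter fun k => k i = b).card := by
      refine Finset.card_image_of_injOn ?_
      intro k hk k' hk' hkk
      have e1 := (Finset.mem_filter.1 hk).2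
      have e2 := (Finset.mem_filter.1 hk').2
      funext l
      have hl : l = i ∨ l = j := by
        rcases hij with ⟨rfl, rfl⟩ | ⟨rfl, rfl⟩ <;> fin_cases l <;> simp
      rcases hl with rfl | rfl
      · rw [e1, e2]
      · exact hkk
    have hsub : ((J.filter fun k => k i = b).image fun k => k j) ⊆
        Finset.Icc (k₀ j - 36) (k₀ j + 36) := by
      intro n hn
      obtain ⟨k, hk, rfl⟩ := Finset.mem_image.1 hn
      obtain ⟨hkJ, hkb⟩ := Finset.mem_filter.1 hk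
      obtain ⟨q1, q2⟩ := hη k hkJ
      obtain ⟨q3, q4⟩ := hη k₀ hk₀
      have hsl := slope2 V hV (η k) (η k₀) q1 q3 i j hij (hc k hkJ) (hc k₀ hk₀) (by
        rcases hs with hs | hs
        · exact Or.inl ⟨hs k hkJ, hs k₀ hk₀⟩
        · exact Or.inr ⟨hs k hkJ, hs k₀ hk₀⟩)
      have ci := (co_le2 _ i).trans q2
      have cj := (co_le2 _ j).trans q2
      have di := (co_le2 _ i).trans q4
      have dj := (co_le2 _ j).trans q4
      rw [PiLp.sub_apply, ctr_app] at ci cj di dj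
      have hkk : (k i : ℝ) = (k₀ i : ℝ) := by
        rw [hkb]
        exact_mod_cast hb0.symm
      rw [hkk] at ci
      obtain ⟨t, ht⟩ : ∃ t : ℝ, t = 3 / K := ⟨_, rfl⟩
      rw [← ht] at ci cj di dj
      have f1 : |η k i - η k₀ i| ≤ 2 * t := by
        have h1 := abs_sub_le (η k i) ((k₀ i : ℝ) / (3 * K)) (η k₀ i)
        have h2 := abs_sub_comm (η k i) ((k₀ i : ℝ) / (3 * K))
        linarith
      have f2 : |(k j : ℝ) / (3 * K) - (k₀ j : ℝ) / (3 * K)| ≤ 4 * t := by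
        have h1 := abs_sub_le ((k j : ℝ) / (3 * K)) (η k j) ((k₀ j : ℝ) / (3 * K))
        have h2 := abs_sub_le (η k j) (η k₀ j) ((k₀ j : ℝ) / (3 * K))
        have h3 := abs_sub_comm (η k₀ j) ((k₀ j : ℝ) / (3 * K))
        linarith
      rw [← sub_div, abs_div, abs_of_pos (by positivity : (0 : ℝ) < 3 * K),
        div_le_iff₀ (by positivity), ht] at f2
      have f3 : 4 * (3 / K) * (3 * K) = 36 := by
        field_simp
        norm_num
      rw [f3] at f2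
      have f4 : |k j - k₀ j| ≤ 36 := by exact_mod_cast f2
      rw [abs_le] at f4
      rw [Finset.mem_Icc]
      constructor <;> linarith [f4.1, f4.2]
    have h1 := Finset.card_le_card hsub
    rw [hinj, Int.card_Icc] at h1
    have h2 : (k₀ j + 36 + 1 - (k₀ j - 36)).toNat = 73 := by
      have : k₀ j + 36 + 1 - (k₀ j - 36) = 73 := by ring
      rw [this]
      rfl
    rwa [h2] at h1
  have h1 := Finset.card_le_mul_card_image J 73 hfib
  have h2 := int_count (3 * K * (x i - r)) (3 * K * (x i + r))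
    (mul_le_mul_of_nonneg_left (by linarith) (by positivity)) (J.image fun k => k i) (by
      intro n hn
      obtain ⟨k, hk, rfl⟩ := Finset.mem_image.1 hn
      have h3 := (co_le2 _ i).trans (hJ k hk)
      rw [PiLp.sub_apply, ctr_app, abs_le] at h3
      have h4 : (k i : ℝ) / (3 * K) * (3 * K) = k i := div_mul_cancel₀ _ (by positivity)
      constructor
      · have := mul_le_mul_of_nonneg_left (by linarith [h3.1] : x i - r ≤ (k i : ℝ) / (3 * K))
          (by positivity : (0 : ℝ) ≤ 3 * K)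
        linarith
      · have := mul_le_mul_of_nonneg_left (by linarith [h3.2] : (k i : ℝ) / (3 * K) ≤ x i + r)
          (by positivity : (0 : ℝ) ≤ 3 * K)
        linarith)
  have h3 : (J.card : ℝ) ≤ 73 * ((J.image fun k => k i).card : ℝ) := by exact_mod_cast h1
  linarith

theorem pf_CIR : T_CIR := by
  classical
  refine ⟨1752, by norm_num, ?_⟩
  intro K r V x J hK hr hV hJ
  have hex : ∀ k, ∃ η : E 2, k ∈ J → η ∈ Cz V ∧ ‖ctr K⁻¹ k - η‖ ≤ 3 / K := by
    intro k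
    by_cases hk : k ∈ J
    · obtain ⟨η, h1, h2⟩ := (hJ k hk).2
      exact ⟨η, fun _ => ⟨h1, h2⟩⟩
    · exact ⟨0, fun h => absurd h hk⟩
  obtain ⟨η, hη⟩ := Classical.skolem.1 hex
  have key : ∀ J' ⊆ J, ∀ i j : Fin 2, ((i = 0 ∧ j = 1) ∨ (i = 1 ∧ j = 0)) →
      (∀ k ∈ J', |gq V (η k) i| ≤ |gq V (η k) j|) →
      ((∀ k ∈ J', 0 ≤ gq V (η k) j) ∨ (∀ k ∈ J', gq V (η k) j ≤ 0)) →
      (J'.card : ℝ) ≤ 73 * (6 * r * K + 1) := fun J' hJ' i j hij hc hs =>
    cls_count K r V x J' hK hr hV η (fun k hk => (hJ k (hJ' hk)).1) (fun k hk => hη k (hJ' hk))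
      i j hij hc hs
  obtain ⟨A, hA⟩ : ∃ A, A = J.filter fun k => |gq V (η k) 0| ≤ |gq V (η k) 1| := ⟨_, rfl⟩
  obtain ⟨B, hB⟩ : ∃ B, B = J.filter fun k => ¬ |gq V (η k) 0| ≤ |gq V (η k) 1| := ⟨_, rfl⟩
  have hAB : A.card + B.card = J.card := by
    rw [hA, hB]
    exact Finset.card_filter_add_card_filter_not _
  have hA2 : (A.filter fun k => 0 ≤ gq V (η k) 1).card +
      (A.filter fun k => ¬ 0 ≤ gq V (η k) 1).card = A.card :=
    Finset.card_filter_add_card_filter_not _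
  have hB2 : (B.filter fun k => 0 ≤ gq V (η k) 0).card +
      (B.filter fun k => ¬ 0 ≤ gq V (η k) 0).card = B.card :=
    Finset.card_filter_add_card_filter_not _
  have hAs : A ⊆ J := by
    rw [hA]
    exact Finset.filter_subset _ _
  have hBs : B ⊆ J := by
    rw [hB]
    exact Finset.filter_subset _ _
  have hAm : ∀ k ∈ A, |gq V (η k) 0| ≤ |gq V (η k) 1| := by
    intro k hk
    rw [hA] at hk
    exact (Finset.mem_filter.1 hk).2
  have hBm : ∀ k ∈ B, |gq V (η k) 1| ≤ |gq V (η k) 0| := by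
    intro k hk
    rw [hB] at hk
    exact (not_le.1 (Finset.mem_filter.1 hk).2).le
  have k1 := key (A.filter fun k => 0 ≤ gq V (η k) 1) ((Finset.filter_subset _ _).trans hAs) 0 1
    (Or.inl ⟨rfl, rfl⟩) (fun k hk => hAm k (Finset.mem_filter.1 hk).1)
    (Or.inl fun k hk => (Finset.mem_filter.1 hk).2)
  have k2 := key (A.filter fun k => ¬ 0 ≤ gq V (η k) 1) ((Finset.filter_subset _ _).trans hAs) 0 1
    (Or.inl ⟨rfl, rfl⟩) (fun k hk => hAm k (Finset.mem_filter.1 hk).1)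
    (Or.inr fun k hk => (not_le.1 (Finset.mem_filter.1 hk).2).le)
  have k3 := key (B.filter fun k => 0 ≤ gq V (η k) 0) ((Finset.filter_subset _ _).trans hBs) 1 0
    (Or.inr ⟨rfl, rfl⟩) (fun k hk => hBm k (Finset.mem_filter.1 hk).1)
    (Or.inl fun k hk => (Finset.mem_filter.1 hk).2)
  have k4 := key (B.filter fun k => ¬ 0 ≤ gq V (η k) 0) ((Finset.filter_subset _ _).trans hBs) 1 0
    (Or.inr ⟨rfl, rfl⟩) (fun k hk => hBm k (Finset.mem_filter.1 hk).1)
    (Or.inr fun k hk => (not_le.1 (Finset.mem_filter.1 hk).2).le)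
  have hsum : (J.card : ℝ) = (A.filter fun k => 0 ≤ gq V (η k) 1).card +
      (A.filter fun k => ¬ 0 ≤ gq V (η k) 1).card + ((B.filter fun k => 0 ≤ gq V (η k) 0).card +
      (B.filter fun k => ¬ 0 ≤ gq V (η k) 0).card) := by
    have : J.card = (A.filter fun k => 0 ≤ gq V (η k) 1).card +
      (A.filter fun k => ¬ 0 ≤ gq V (η k) 1).card + ((B.filter fun k => 0 ≤ gq V (η k) 0).card +
      (B.filter fun k => ¬ 0 ≤ gq V (η k) 0).card) := by omega
    exact_mod_cast this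
  rw [hsum]
  have hrK : 0 ≤ r * K := mul_nonneg hr (by linarith)
  linarith

end Pool.Agent.H45.D3
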