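import Pool.Agent.H81.D3.Targets

/-!
# Board d3n_modules, row PTS: separated points in a plank and in a ball
-/

set_option autoImplicit false

open MeasureTheory Set Metric

namespace Pool.Agent.H45.D3

open Pool.Agent.H83.G Pool.Agent.H81.D3
open scoped ENNReal RealInnerProductSpace

theorem vol_haar2 : (volume : Measure (E 2 × ℝ)).IsAddHaarMeasure := by
  rw [Measure.volume_eq_prod]
  infer_instance

theorem vol_haar : (volume : Measure (Z 2)).IsAddHaarMeasure := by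
  have h := vol_haar2
  rw [Measure.volume_eq_prod]
  infer_instance

theorem fr4 : Module.finrank ℝ (Z 2) = 4 := by
  simp [Module.finrank_prod]

theorem vol_ball (x : Z 2) (r : ℝ) (hr : 0 ≤ r) :
    volume (ball x r) = ENNReal.ofReal (r ^ 4) * volume (ball (0 : Z 2) 1) := by
  have := vol_haar
  rw [Measure.addHaar_ball volume x hr, fr4]

theorem vol_cball (x : Z 2) (r : ℝ) (hr : 0 ≤ r) :
    volume (closedBall x r) = ENNReal.ofReal (r ^ 4) * volume (ball (0 : Z 2) 1) := by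
  have := vol_haar
  rw [Measure.addHaar_closedBall volume x hr, fr4]

theorem vol_card (Y : Finset (Z 2)) (hY : Sep Y) (S : Set (Z 2)) (c : ℝ) (hc : 0 ≤ c)
    (hS : volume S ≤ ENNReal.ofReal c * volume (ball (0 : Z 2) 1))
    (hsub : ∀ z ∈ Y, ball z (1 / 2) ⊆ S) : (Y.card : ℝ) ≤ 16 * c := by
  have := vol_haar
  have hv0 : volume (ball (0 : Z 2) 1) ≠ 0 := (measure_ball_pos volume _ one_pos).ne'
  have hvt : volume (ball (0 : Z 2) 1) ≠ ⊤ := measure_ball_lt_top.ne
  obtain ⟨v, hv⟩ : ∃ v : ℝ, v = (volume (ball (0 : Z 2) 1)).toReal := ⟨_, rfl⟩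
  have hvp : 0 < v := by
    rw [hv]
    exact ENNReal.toReal_pos hv0 hvt
  have hve : volume (ball (0 : Z 2) 1) = ENNReal.ofReal v := by
    rw [hv, ENNReal.ofReal_toReal hvt]
  have h1 : volume (⋃ z ∈ Y, ball z (1 / 2)) = ∑ z ∈ Y, volume (ball z (1 / 2)) := by
    refine measure_biUnion_finset ?_ fun z _ => measurableSet_ball
    intro z hz z' hz' hne
    refine ball_disjoint_ball ?_
    rw [dist_eq_norm]
    have := hY z hz z' hz' hne
    linarith
  have h2 : volume (⋃ z ∈ Y, ball z (1 / 2)) ≤ volume S :=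
    measure_mono (iUnion₂_subset fun z hz => hsub z hz)
  have h3 : ∑ z ∈ Y, volume (ball z (1 / 2)) = ENNReal.ofReal (Y.card * ((1 / 2) ^ 4 * v)) := by
    rw [Finset.sum_congr rfl fun z _ => vol_ball z (1 / 2) (by norm_num), Finset.sum_const,
      nsmul_eq_mul, hve, ← ENNReal.ofReal_natCast Y.card,
      ← ENNReal.ofReal_mul (by positivity : (0 : ℝ) ≤ (1 / 2) ^ 4),
      ← ENNReal.ofReal_mul (Nat.cast_nonneg _)]
  rw [h1, h3] at h2
  have h4 := h2.trans hS
  rw [hve, ← ENNReal.ofReal_mul hc, ENNReal.ofReal_le_ofReal_iff (by positivity)] at h4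
  have h5 : (Y.card : ℝ) * (1 / 2) ^ 4 ≤ c := by
    refine le_of_mul_le_mul_right ?_ hvp
    linarith
  linarith

theorem ctr_le (w : ℕ) (κ : Fin 2 → ℤ) (hw : 1 ≤ w) (hκ : κ ∈ Ks 2 (w : ℝ)⁻¹) :
    ‖ctr (w : ℝ)⁻¹ κ‖ ≤ 5 := by
  have hw0 : (0 : ℝ) < w := by exact_mod_cast hw
  have hc : ⌈3 * (((2 : ℕ) : ℝ) + 1) / (w : ℝ)⁻¹⌉ = 9 * (w : ℤ) := by
    rw [Int.ceil_eq_iff, div_inv_eq_mul]
    push_cast
    constructor <;> linarith
  unfold Ks at hκ
  rw [Fintype.mem_piFinset] at hκ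
  have hk : ∀ i, |(κ i : ℝ)| ≤ 9 * w := by
    intro i
    have h := Finset.mem_Icc.1 (hκ i)
    rw [hc] at h
    rw [abs_le]
    constructor
    · exact_mod_cast h.1
    · exact_mod_cast h.2
  unfold ctr
  rw [norm_smul, EuclideanSpace.norm_eq, Fin.sum_univ_two]
  simp only
  rw [Real.norm_eq_abs, Real.norm_eq_abs, Real.norm_eq_abs, sq_abs, sq_abs]
  have e1 : (κ 0 : ℝ) ^ 2 ≤ (9 * w) ^ 2 := sq_le_sq' (abs_le.1 (hk 0)).1 (abs_le.1 (hk 0)).2
  have e2 : (κ 1 : ℝ) ^ 2 ≤ (9 * w) ^ 2 := sq_le_sq' (abs_le.1 (hk 1)).1 (abs_le.1 (hk 1)).2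
  have e3 : Real.sqrt ((κ 0 : ℝ) ^ 2 + (κ 1 : ℝ) ^ 2) ≤ 15 * w := by
    refine Real.sqrt_le_iff.2 ⟨by positivity, ?_⟩
    nlinarith
  have e4 : |(w : ℝ)⁻¹ / (((2 : ℕ) : ℝ) + 1)| = (w : ℝ)⁻¹ / 3 := by
    rw [abs_of_pos (by positivity)]
    norm_num
  rw [e4]
  calc (w : ℝ)⁻¹ / 3 * Real.sqrt ((κ 0 : ℝ) ^ 2 + (κ 1 : ℝ) ^ 2) ≤ (w : ℝ)⁻¹ / 3 * (15 * w) :=
        mul_le_mul_of_nonneg_left e3 (by positivity)
    _ = 5 := by
        field_simp
        norm_num

theorem max_sep (Y : Finset (Z 2)) :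
    ∃ Y' ⊆ Y, Sep Y' ∧ ∀ z ∈ Y, ∃ z' ∈ Y', ‖z - z'‖ ≤ 1 := by
  classical
  obtain ⟨Y', hY', hmax⟩ := Finset.exists_max_image (Y.powerset.filter fun Z' => Sep Z')
    (fun Z' => Z'.card) ⟨∅, by
      rw [Finset.mem_filter, Finset.mem_powerset]
      exact ⟨Finset.empty_subset _, fun z hz => absurd hz (Finset.notMem_empty z)⟩⟩
  rw [Finset.mem_filter, Finset.mem_powerset] at hY'
  refine ⟨Y', hY'.1, hY'.2, fun z hz => ?_⟩
  by_contra hcon
  push Not at hcon
  have hz' : z ∉ Y' := by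
    intro h
    have := hcon z h
    rw [sub_self, norm_zero] at this
    linarith
  have hs : Sep (insert z Y') := by
    intro a ha b hb hab
    rw [Finset.mem_insert] at ha hb
    rcases ha with rfl | ha
    · rcases hb with rfl | hb
      · exact absurd rfl hab
      · exact (hcon b hb).le
    · rcases hb with rfl | hb
      · rw [norm_sub_rev]
        exact (hcon a ha).le
      · exact hY'.2 a ha b hb hab
  have h1 := hmax (insert z Y') (by
    rw [Finset.mem_filter, Finset.mem_powerset]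
    exact ⟨Finset.insert_subset hz hY'.1, hs⟩)
  rw [Finset.card_insert_of_notMem hz'] at h1
  omega

theorem pf_PTS (hLOI : T_LOI) (hLOB : T_LOB) (hLOA : T_LOA) (hWT3 : T_WT3) : T_PTS := by
  clear hWT3
  refine ⟨2085136, by norm_num, ?_, ?_, max_sep⟩
  · intro D w κ x Y hD hw hκ hY hYD
    have hw0 : (0 : ℝ) < w := by exact_mod_cast hw
    have hw1 : (1 : ℝ) ≤ w := by exact_mod_cast hw
    have hs0 : (0 : ℝ) < (w : ℝ)⁻¹ := inv_pos.2 hw0
    have hs1 : (w : ℝ)⁻¹ ≤ 1 := inv_le_one_of_one_le₀ hw1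
    have hc5 := ctr_le w κ hw hκ
    obtain ⟨hI, -, -, -, hcd, -⟩ := hLOI 2 (ctr (w : ℝ)⁻¹ κ) (w : ℝ)⁻¹ hs0
    have hcont : Continuous (Lc w κ) := hcd.continuous
    have hvol : volume (Lc w κ ⁻¹' closedBall x (D + 18)) ≤
        ENNReal.ofReal ((w : ℝ) ^ 4 * (D + 18) ^ 4) * volume (ball (0 : Z 2) 1) := by
      have h1 := hI ((closedBall x (D + 18)).indicator 1)
      rw [lintegral_indicator_one measurableSet_closedBall] at h1
      have h2 : (fun z => (closedBall x (D + 18)).indicator (1 : Z 2 → ℝ≥0∞)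
          (Lo (ctr (w : ℝ)⁻¹ κ) (w : ℝ)⁻¹ z)) =
          (Lc w κ ⁻¹' closedBall x (D + 18)).indicator 1 := by
        funext z
        by_cases hz : Lc w κ z ∈ closedBall x (D + 18)
        · rw [indicator_of_mem (show z ∈ Lc w κ ⁻¹' closedBall x (D + 18) from hz)]
          exact indicator_of_mem hz _
        · rw [indicator_of_notMem (show z ∉ Lc w κ ⁻¹' closedBall x (D + 18) from hz)]
          exact indicator_of_notMem hz _
      rw [h2, lintegral_indicator_one (hcont.measurable measurableSet_closedBall), inv_inv,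
        vol_cball x (D + 18) (by positivity), ← mul_assoc, ← ENNReal.ofReal_mul (by positivity)]
        at h1
      exact h1.le
    have h1 := vol_card Y hY _ _ (by positivity) hvol (by
      intro z hz u hu
      have hu' : ‖u - z‖ < 1 / 2 := by rwa [mem_ball, dist_eq_norm] at hu
      show Lc w κ u ∈ closedBall x (D + 18)
      rw [mem_closedBall, dist_eq_norm]
      have e1 : Lc w κ (u - z) = Lc w κ u - Lc w κ z := ((hLOA 2).1 _ _ u z).2.1
      have e2 : ‖Lc w κ (u - z)‖ ≤ (1 + 5) ^ 2 * ‖u - z‖ :=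
        ((hLOB 2 5 (by norm_num)).1 _ _ (u - z) hc5 hs0.le hs1).1
      have e3 : Lc w κ u - x = Lc w κ (u - z) + (Lc w κ z - x) := by
        rw [e1]
        abel
      rw [e3]
      refine (norm_add_le _ _).trans ?_
      have e4 := hYD z hz
      linarith)
    refine h1.trans ?_
    have h2 : (D + 18) ^ 4 ≤ (19 * D) ^ 4 := pow_le_pow_left₀ (by positivity) (by linarith) 4
    have h3 := mul_le_mul_of_nonneg_left h2 (by positivity : (0 : ℝ) ≤ 16 * (w : ℝ) ^ 4)
    calc 16 * ((w : ℝ) ^ 4 * (D + 18) ^ 4) = 16 * (w : ℝ) ^ 4 * (D + 18) ^ 4 := by ring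
      _ ≤ 16 * (w : ℝ) ^ 4 * (19 * D) ^ 4 := h3
      _ = 2085136 * D ^ 4 * (w : ℝ) ^ 4 := by ring
  · intro D x Y hD hY hYD
    have h1 := vol_card Y hY (closedBall x (D + 1 / 2)) ((D + 1 / 2) ^ 4) (by positivity)
      (vol_cball x (D + 1 / 2) (by positivity)).le (by
      intro z hz u hu
      have hu' : ‖u - z‖ < 1 / 2 := by rwa [mem_ball, dist_eq_norm] at hu
      rw [mem_closedBall, dist_eq_norm]
      have e3 : u - x = (u - z) + (z - x) := by abel
      rw [e3]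
      refine (norm_add_le _ _).trans ?_
      have e4 := hYD z hz
      linarith)
    refine h1.trans ?_
    have h2 : (D + 1 / 2) ^ 4 ≤ (2 * D) ^ 4 := pow_le_pow_left₀ (by positivity) (by linarith) 4
    have h3 : 0 ≤ D ^ 4 := by positivity
    calc 16 * (D + 1 / 2) ^ 4 ≤ 16 * (2 * D) ^ 4 := by linarith
      _ = 256 * D ^ 4 := by ring
      _ ≤ 2085136 * D ^ 4 := by linarith

end Pool.Agent.H45.D3
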