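import Pool.Agent.H45.D3.CIR
import Pool.Agent.H45.D3.PTS

/-!
# Board d3n_modules, row NSA: one point of a node
-/

set_option autoImplicit false

open Set Filter Topology

namespace Pool.Agent.H45.D3

open Pool.Agent.H83.G Pool.Agent.H81.D3
open scoped ENNReal RealInnerProductSpace

theorem pow_lt_two (c s : ℝ) : ∃ C : ℝ, ∀ x : ℝ, C ≤ x → c * x ^ s < 2 ^ (x - 1) := by
  have h1 := tendsto_rpow_mul_exp_neg_mul_atTop_nhds_zero s (Real.log 2) (Real.log_pos one_lt_two)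
  have h2 : Tendsto (fun x : ℝ => (2 * c) * (x ^ s * Real.exp (-Real.log 2 * x))) atTop
      (𝓝 ((2 * c) * 0)) := h1.const_mul (2 * c)
  rw [mul_zero] at h2
  obtain ⟨C, hC⟩ := eventually_atTop.1 (h2.eventually (gt_mem_nhds zero_lt_one))
  refine ⟨C, fun x hx => ?_⟩
  have h3 := hC x hx
  have h4 : (2 : ℝ) ^ (x - 1) = Real.exp (Real.log 2 * x) / 2 := by
    rw [Real.rpow_sub two_pos, Real.rpow_one, Real.rpow_def_of_pos two_pos]
  have h5 : Real.exp (-Real.log 2 * x) * Real.exp (Real.log 2 * x) = 1 := by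
    rw [← Real.exp_add]
    simp
  have h6 := mul_lt_mul_of_pos_right h3 (Real.exp_pos (Real.log 2 * x))
  rw [h4]
  have h7 : 2 * c * (x ^ s * Real.exp (-Real.log 2 * x)) * Real.exp (Real.log 2 * x) =
      2 * (c * x ^ s) * (Real.exp (-Real.log 2 * x) * Real.exp (Real.log 2 * x)) := by ring
  rw [h7, h5] at h6
  linarith

theorem pf_NSA (hDCX : T_DCX) (hNFI : T_NFI) (hNRW : T_NRW) (hCIR : T_CIR) (hCLW : T_CLW)
    (hTLS : T_TLS) (hAMU : T_AMU) : T_NSA := by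
  classical
  obtain ⟨C₇, hC₇, hcir⟩ := hCIR
  refine ⟨8, by norm_num, ?_⟩
  intro L N₁ β Ψ ψ δ M hL hβ hψ hδ hδ1 hM
  obtain ⟨N₀, hN₀⟩ := hNRW L N₁ β δ hβ hδ hδ1
  refine ⟨max N₀ 5, fun N hN => ?_⟩
  have hN5 : 2 + 3 ≤ N := le_trans (le_max_right _ _) hN
  obtain ⟨C₁, hC₁, hnrw⟩ := hN₀ N (le_trans (le_max_left _ _) hN)
  obtain ⟨C₂, hC₂, hdcx⟩ := hDCX 2 L β Ψ ψ δ M hβ hψ hδ (by linarith)
  obtain ⟨C₃, hC₃, htls⟩ := hTLS 2 L N β Ψ ψ δ M hβ hψ hδ (by linarith) hN5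
  obtain ⟨C₄, hC₄, hamu⟩ := hAMU 2 L N β δ hβ hδ.le hN5
  obtain ⟨C₅, hC₅⟩ := pow_lt_two C₄ ((M + 50) / δ)
  obtain ⟨C₆, hC₆, hnf1, hnf2⟩ := hNFI δ hδ (by linarith)
  obtain ⟨C, hC⟩ : ∃ C, C = 2 + C₁ + 4 * C₂ + 4 * C₃ + |C₅| + 6 * C₇ * C₆ := ⟨_, rfl⟩
  have h67 : 0 ≤ 6 * C₇ * C₆ := by positivity
  have h5a := abs_nonneg C₅
  have h5b := le_abs_self C₅
  refine ⟨C, by linarith, ?_⟩
  intro R A H K n G z V hR hCK hKR hA hH hAR hn hG hHz hNar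
  have hK0 : K ≠ 0 := by
    rintro rfl
    rw [Nat.cast_zero, Real.zero_rpow hδ.ne'] at hCK
    linarith
  have hK1 : (1 : ℝ) ≤ K := by exact_mod_cast Nat.one_le_iff_ne_zero.2 hK0
  have hKp : (0 : ℝ) < K := by linarith
  have hKδ : (K : ℝ) ^ δ ≤ K := by
    have := Real.rpow_le_rpow_of_exponent_le hK1 (by linarith : δ ≤ 1)
    rwa [Real.rpow_one] at this
  have hKC : C ≤ K := hCK.trans hKδ
  have hK2 : (1 : ℝ) ≤ (K : ℝ) ^ 2 := one_le_pow₀ hK1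
  have hsR : sR ((K : ℝ) ^ 2) = (K : ℝ)⁻¹ := by
    unfold sR
    rw [Real.sqrt_sq hKp.le]
  obtain ⟨A', hA'⟩ : ∃ A', A' = A * (R / (K : ℝ) ^ 2) := ⟨_, rfl⟩
  have hA'0 : 0 < A' := by
    rw [hA']
    positivity
  have hG' : Cls L (1 / 4) ((K : ℝ) ^ 2) A' G := by
    rw [hA']
    exact hCLW L (1 / 4) R A K G (by norm_num) hK1 hKR hA hG
  obtain ⟨a, ha⟩ : ∃ a : ℝ, a = (K : ℝ) ^ M := ⟨_, rfl⟩
  have ha1 : 1 ≤ a := by
    rw [ha]
    exact Real.one_le_rpow hK1 (by linarith)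
  have hA'a : A' ≤ a * H / (K : ℝ) ^ 2 := by
    rw [hA', ← mul_div_assoc, ha]
    exact div_le_div_of_nonneg_right hAR (by positivity)
  have hA'b : A' ≤ a * H := hA'a.trans (div_le_self (by positivity) hK2)
  have hinvK : ∀ c : ℝ, 0 < c → 4 * c ≤ K → c * H / K ≤ H / 4 := by
    intro c hc hcK
    rw [div_le_div_iff₀ hKp (by norm_num)]
    nlinarith
  -- the planks near the point
  obtain ⟨S0, -, hS0⟩ := hnf1 ((K : ℝ) ^ 2) z hK2
  rw [hsR] at hS0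
  have herr : ‖TF G z - ∑ W ∈ S0, Fp β ψ ((K : ℝ) ^ 2) δ G W z‖ ≤ H / 4 := by
    refine (hdcx (1 / 4) ((K : ℝ) ^ 2) A' G S0 z (by norm_num) (by norm_num) hK2 hA'0 hG'
      (fun W hW => by rw [hsR]; exact ((hS0 W).1 hW).1)
      (fun W hW1 hW2 => (hS0 W).2 ⟨by rwa [hsR] at hW1, hW2⟩)).trans ?_
    have e1 : ((K : ℝ) ^ 2) ^ (-M) = (a ^ 2)⁻¹ := by
      rw [Real.rpow_neg (by positivity), ha, ← Real.rpow_natCast, ← Real.rpow_natCast,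
        ← Real.rpow_mul hKp.le, ← Real.rpow_mul hKp.le, mul_comm M]
    rw [e1]
    have e2 : C₂ * A' * (a ^ 2)⁻¹ ≤ C₂ * (a * H / (K : ℝ) ^ 2) * (a ^ 2)⁻¹ := by gcongr
    refine e2.trans (le_trans ?_ (hinvK C₂ hC₂ (by linarith)))
    have e3 : C₂ * (a * H / (K : ℝ) ^ 2) * (a ^ 2)⁻¹ = C₂ * H / K * (a * K)⁻¹ := by
      field_simp
    rw [e3]
    refine mul_le_of_le_one_right (by positivity) (inv_le_one_of_one_le₀ ?_)
    nlinarith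
  -- small amplitudes
  obtain ⟨a0, ha0⟩ : ∃ a0 : ℝ, a0 = (K : ℝ) ^ (-50 : ℝ) * H := ⟨_, rfl⟩
  have hK50 : (K : ℝ) ^ (-50 : ℝ) = ((K : ℝ) ^ 50)⁻¹ := by
    rw [Real.rpow_neg hKp.le]
    norm_num
  have ha0p : 0 < a0 := by
    rw [ha0]
    positivity
  have hsmall : ‖∑ W ∈ S0.filter (fun W => ¬ a0 ≤ al N β ((K : ℝ) ^ 2) δ G W),
      Fp β ψ ((K : ℝ) ^ 2) δ G W z‖ ≤ H / 4 := by
    refine (norm_sum_le _ _).trans ?_
    have e0 := (htls (1 / 4) ((K : ℝ) ^ 2) A' G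
      (S0.filter (fun W => ¬ a0 ≤ al N β ((K : ℝ) ^ 2) δ G W)) z (by norm_num) (by norm_num) hK2
      hA'0 hG' (fun W hW => by
        rw [hsR]
        exact ((hS0 W).1 (Finset.mem_filter.1 hW).1).1)).2 a0 ha0p.le
      (fun W hW => (not_le.1 (Finset.mem_filter.1 hW).2).le)
    refine e0.trans (le_trans ?_ (hinvK C₃ hC₃ (by linarith)))
    have e1 : ((K : ℝ) ^ 2) ^ (((2 : ℕ) : ℝ) + 2) = (K : ℝ) ^ 8 := by
      have : ((2 : ℕ) : ℝ) + 2 = ((4 : ℕ) : ℝ) := by norm_num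
      rw [this, Real.rpow_natCast, ← pow_mul]
    rw [e1, ha0, hK50]
    have e3 : C₃ * (K : ℝ) ^ 8 * (((K : ℝ) ^ 50)⁻¹ * H) = C₃ * H / K * ((K : ℝ) ^ 41)⁻¹ := by
      field_simp
    rw [e3]
    exact mul_le_of_le_one_right (by positivity) (inv_le_one_of_one_le₀ (one_le_pow₀ hK1))
  -- the classes
  obtain ⟨n1, hn1⟩ : ∃ n1 : ℕ, n1 = ⌊(K : ℝ) ^ δ⌋₊ := ⟨_, rfl⟩
  obtain ⟨Si, hSi⟩ : ∃ Si : ℕ → Finset (Pk 2), Si = fun i => S0.filter (fun W =>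
    2 ^ i * a0 ≤ al N β ((K : ℝ) ^ 2) δ G W ∧ al N β ((K : ℝ) ^ 2) δ G W < 2 ^ (i + 1) * a0) :=
    ⟨_, rfl⟩
  have hSim : ∀ i W, W ∈ Si i ↔ W ∈ S0 ∧ 2 ^ i * a0 ≤ al N β ((K : ℝ) ^ 2) δ G W ∧
      al N β ((K : ℝ) ^ 2) δ G W < 2 ^ (i + 1) * a0 := by
    intro i W
    rw [hSi]
    exact Finset.mem_filter
  have hcls : ∀ W ∈ S0, a0 ≤ al N β ((K : ℝ) ^ 2) δ G W → ∃ i < n1, W ∈ Si i := by
    intro W hW hWa
    have e1 : 1 ≤ al N β ((K : ℝ) ^ 2) δ G W / a0 := by rwa [one_le_div ha0p]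
    obtain ⟨i, hi1, hi2⟩ := exists_nat_pow_near e1 one_lt_two
    rw [le_div_iff₀ ha0p] at hi1
    rw [div_lt_iff₀ ha0p] at hi2
    refine ⟨i, ?_, (hSim i W).2 ⟨hW, hi1, hi2⟩⟩
    by_contra hcon
    push Not at hcon
    have e2 := (hamu (1 / 4) ((K : ℝ) ^ 2) A' G W (by norm_num) (by norm_num) hK2 hA'0 hG').1
    have e3 : 2 ^ i * a0 ≤ C₄ * (a * H) := hi1.trans (e2.trans (by gcongr))
    have e4 : (2 : ℝ) ^ i ≤ C₄ * (a * (K : ℝ) ^ 50) := by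
      rw [ha0, hK50] at e3
      have e5 : 2 ^ i * (((K : ℝ) ^ 50)⁻¹ * H) * ((K : ℝ) ^ 50 / H) = 2 ^ i := by
        field_simp
      have e6 : C₄ * (a * H) * ((K : ℝ) ^ 50 / H) = C₄ * (a * (K : ℝ) ^ 50) := by
        field_simp
      have e7 := mul_le_mul_of_nonneg_right e3 (by positivity : (0 : ℝ) ≤ (K : ℝ) ^ 50 / H)
      rwa [e5, e6] at e7
    have e8 : a * (K : ℝ) ^ 50 = ((K : ℝ) ^ δ) ^ ((M + 50) / δ) := by
      rw [← Real.rpow_mul hKp.le, mul_div_cancel₀ _ hδ.ne', Real.rpow_add hKp, ha]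
      norm_num
    have e9 := hC₅ ((K : ℝ) ^ δ) (by linarith)
    rw [e8] at e4
    have e10 : (2 : ℝ) ^ ((K : ℝ) ^ δ - 1) ≤ 2 ^ i := by
      rw [← Real.rpow_natCast]
      refine Real.rpow_le_rpow_of_exponent_le one_le_two ?_
      have f1 : (n1 : ℝ) ≤ i := by exact_mod_cast hcon
      have f2 := Nat.lt_floor_add_one ((K : ℝ) ^ δ)
      rw [← hn1] at f2
      linarith
    linarith
  have hsum : ∑ W ∈ S0.filter (fun W => a0 ≤ al N β ((K : ℝ) ^ 2) δ G W),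
      Fp β ψ ((K : ℝ) ^ 2) δ G W z =
      ∑ i ∈ Finset.range n1, ∑ W ∈ Si i, Fp β ψ ((K : ℝ) ^ 2) δ G W z := by
    have hU : S0.filter (fun W => a0 ≤ al N β ((K : ℝ) ^ 2) δ G W) =
        (Finset.range n1).biUnion Si := by
      ext W
      rw [Finset.mem_filter, Finset.mem_biUnion]
      constructor
      · rintro ⟨h1, h2⟩
        obtain ⟨i, hi, hW⟩ := hcls W h1 h2
        exact ⟨i, Finset.mem_range.2 hi, hW⟩
      · rintro ⟨i, -, hW⟩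
        obtain ⟨h1, h2, -⟩ := (hSim i W).1 hW
        refine ⟨h1, le_trans ?_ h2⟩
        exact le_mul_of_one_le_left ha0p.le (one_le_pow₀ one_le_two)
    rw [hU, Finset.sum_biUnion]
    intro i _ j _ hij
    rw [Function.onFun, Finset.disjoint_left]
    intro W hWi hWj
    obtain ⟨-, h1, h2⟩ := (hSim i W).1 hWi
    obtain ⟨-, h3, h4⟩ := (hSim j W).1 hWj
    have h5 : (2 : ℝ) ^ i < 2 ^ (j + 1) := lt_of_mul_lt_mul_right (h1.trans_lt h4) ha0p.le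
    have h6 : (2 : ℝ) ^ j < 2 ^ (i + 1) := lt_of_mul_lt_mul_right (h3.trans_lt h2) ha0p.le
    have h7 := (pow_lt_pow_iff_right₀ (one_lt_two : (1 : ℝ) < 2)).1 h5
    have h8 := (pow_lt_pow_iff_right₀ (one_lt_two : (1 : ℝ) < 2)).1 h6
    exact hij (by omega)
  have hbig : H / 2 ≤ ∑ i ∈ Finset.range n1, ‖∑ W ∈ Si i, Fp β ψ ((K : ℝ) ^ 2) δ G W z‖ := by
    have e1 := Finset.sum_filter_add_sum_filter_not S0
      (fun W => a0 ≤ al N β ((K : ℝ) ^ 2) δ G W) (fun W => Fp β ψ ((K : ℝ) ^ 2) δ G W z)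
    rw [hsum] at e1
    have e2 : ‖∑ i ∈ Finset.range n1, ∑ W ∈ Si i, Fp β ψ ((K : ℝ) ^ 2) δ G W z‖ ≤
        ∑ i ∈ Finset.range n1, ‖∑ W ∈ Si i, Fp β ψ ((K : ℝ) ^ 2) δ G W z‖ := norm_sum_le _ _
    have e3 : ‖TF G z‖ ≤ ‖TF G z - ∑ W ∈ S0, Fp β ψ ((K : ℝ) ^ 2) δ G W z‖ +
        ‖∑ W ∈ S0, Fp β ψ ((K : ℝ) ^ 2) δ G W z‖ := by
      have := norm_add_le (TF G z - ∑ W ∈ S0, Fp β ψ ((K : ℝ) ^ 2) δ G W z)
        (∑ W ∈ S0, Fp β ψ ((K : ℝ) ^ 2) δ G W z)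
      rwa [sub_add_cancel] at this
    have e4 : ‖∑ W ∈ S0, Fp β ψ ((K : ℝ) ^ 2) δ G W z‖ ≤
        ‖∑ i ∈ Finset.range n1, ∑ W ∈ Si i, Fp β ψ ((K : ℝ) ^ 2) δ G W z‖ +
        ‖∑ W ∈ S0.filter (fun W => ¬ a0 ≤ al N β ((K : ℝ) ^ 2) δ G W),
          Fp β ψ ((K : ℝ) ^ 2) δ G W z‖ := by
      rw [← e1]
      exact norm_add_le _ _
    linarith
  obtain ⟨i, hi, hiH⟩ : ∃ i ∈ Finset.range n1, H / 2 ≤
      n1 * ‖∑ W ∈ Si i, Fp β ψ ((K : ℝ) ^ 2) δ G W z‖ := by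
    by_contra hcon
    push Not at hcon
    rcases Nat.eq_zero_or_pos n1 with h0 | h0
    · rw [h0, Finset.range_zero, Finset.sum_empty] at hbig
      linarith
    · have hn0 : (0 : ℝ) < n1 := by exact_mod_cast h0
      have e1 : ∑ i ∈ Finset.range n1, ‖∑ W ∈ Si i, Fp β ψ ((K : ℝ) ^ 2) δ G W z‖ <
          ∑ _i ∈ Finset.range n1, H / 2 / n1 := by
        refine Finset.sum_lt_sum_of_nonempty ⟨0, Finset.mem_range.2 h0⟩ fun i hi => ?_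
        rw [lt_div_iff₀ hn0, mul_comm]
        exact hcon i hi
      rw [Finset.sum_const, Finset.card_range, nsmul_eq_mul, mul_div_cancel₀ _ hn0.ne'] at e1
      linarith
  have hcr : ∀ W ∈ Si i, ∃ j, ∃ η ∈ Cz (V j), ‖ctr (K : ℝ)⁻¹ W.1 - η‖ ≤ 3 / K := by
    intro W hW
    obtain ⟨h1, h2, -⟩ := (hSim i W).1 hW
    obtain ⟨h3, h4⟩ := (hS0 W).1 h1
    refine hnrw R A H K n G z V W hR (by linarith) hKR hA hH hG h3 h4 ?_ hNar
    rw [← ha0]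
    exact (le_mul_of_one_le_left ha0p.le (one_le_pow₀ one_le_two)).trans h2
  refine ⟨i, by rw [← hn1]; exact Finset.mem_range.1 hi, Si i, ?_, ?_, ?_, hcr⟩
  · intro W
    rw [hSim, hS0, ← ha0, and_assoc]
  · have e1 : (n1 : ℝ) ≤ (K : ℝ) ^ δ := by
      rw [hn1]
      exact Nat.floor_le (by positivity)
    have e2 := mul_le_mul_of_nonneg_right e1
      (norm_nonneg (∑ W ∈ Si i, Fp β ψ ((K : ℝ) ^ 2) δ G W z))
    have e3 : 0 ≤ (K : ℝ) ^ δ * ‖∑ W ∈ Si i, Fp β ψ ((K : ℝ) ^ 2) δ G W z‖ := by positivity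
    have e4 : 2 ≤ C := by linarith
    have e5 := mul_le_mul_of_nonneg_right e4 e3
    rw [mul_assoc]
    linarith
  · -- the number of planks
    obtain ⟨Jc, hJc⟩ : ∃ Jc : Finset (Fin 2 → ℤ), Jc = (Si i).image fun W => W.1 := ⟨_, rfl⟩
    have hJcard : (Jc.card : ℝ) ≤ n * (6 * C₇ * K) := by
      have hsub : Jc ⊆ (Finset.univ : Finset (Fin n)).biUnion fun j =>
          Jc.filter fun k => ∃ η ∈ Cz (V j), ‖ctr (K : ℝ)⁻¹ k - η‖ ≤ 3 / K := by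
        intro k hk
        have hk' := hk
        rw [hJc] at hk'
        obtain ⟨W, hW, rfl⟩ := Finset.mem_image.1 hk'
        obtain ⟨j, hj⟩ := hcr W hW
        rw [Finset.mem_biUnion]
        exact ⟨j, Finset.mem_univ _, Finset.mem_filter.2 ⟨hk, hj⟩⟩
      have h1 : (Jc.card : ℝ) ≤ ∑ j : Fin n,
          ((Jc.filter fun k => ∃ η ∈ Cz (V j), ‖ctr (K : ℝ)⁻¹ k - η‖ ≤ 3 / K).card : ℝ) := by
        have := (Finset.card_le_card hsub).trans Finset.card_biUnion_le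
        exact_mod_cast this
      refine h1.trans ?_
      have h2 : ∀ j : Fin n,
          ((Jc.filter fun k => ∃ η ∈ Cz (V j), ‖ctr (K : ℝ)⁻¹ k - η‖ ≤ 3 / K).card : ℝ) ≤
          6 * C₇ * K := by
        intro j
        have h3 := hcir K 5 (V j) 0
          (Jc.filter fun k => ∃ η ∈ Cz (V j), ‖ctr (K : ℝ)⁻¹ k - η‖ ≤ 3 / K) hK1 (by norm_num)
          (hNar.1 j) (by
            intro k hk
            obtain ⟨hk1, hk2⟩ := Finset.mem_filter.1 hk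
            rw [hJc] at hk1
            obtain ⟨W, hW, rfl⟩ := Finset.mem_image.1 hk1
            refine ⟨?_, hk2⟩
            rw [sub_zero]
            exact ctr_le K W.1 (Nat.one_le_iff_ne_zero.2 hK0)
              ((hS0 W).1 ((hSim i W).1 hW).1).1)
        refine h3.trans ?_
        have : C₇ * (5 * K + 1) ≤ C₇ * (6 * K) :=
          mul_le_mul_of_nonneg_left (by linarith) (by linarith)
        linarith
      calc ∑ j : Fin n,
          ((Jc.filter fun k => ∃ η ∈ Cz (V j), ‖ctr (K : ℝ)⁻¹ k - η‖ ≤ 3 / K).card : ℝ)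
          ≤ ∑ _j : Fin n, 6 * C₇ * K := Finset.sum_le_sum fun j _ => h2 j
        _ = n * (6 * C₇ * K) := by
            rw [Finset.sum_const, Finset.card_univ, Fintype.card_fin, nsmul_eq_mul]
    have hfib : ((Si i).card : ℝ) ≤ Jc.card * (C₆ * ((K : ℝ) ^ 2) ^ (4 * δ)) := by
      have h1 : (Si i).card = ∑ k ∈ Jc, ((Si i).filter fun W => W.1 = k).card :=
        Finset.card_eq_sum_card_fiberwise fun W hW => by
          rw [hJc]
          exact Finset.mem_coe.2 (Finset.mem_image_of_mem _ hW)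
      rw [h1]
      push_cast
      calc ∑ k ∈ Jc, (((Si i).filter fun W => W.1 = k).card : ℝ)
          ≤ ∑ _k ∈ Jc, C₆ * ((K : ℝ) ^ 2) ^ (4 * δ) := by
            refine Finset.sum_le_sum fun k _ => hnf2 ((K : ℝ) ^ 2) z k _ hK2 ?_
            intro W hW
            obtain ⟨h2, h3⟩ := Finset.mem_filter.1 hW
            exact ⟨h3, ((hS0 W).1 ((hSim i W).1 h2).1).2⟩
        _ = Jc.card * (C₆ * ((K : ℝ) ^ 2) ^ (4 * δ)) := by
            rw [Finset.sum_const, nsmul_eq_mul]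
    have e1 : ((K : ℝ) ^ 2) ^ (4 * δ) = (K : ℝ) ^ (8 * δ) := by
      rw [← Real.rpow_natCast, ← Real.rpow_mul hKp.le]
      congr 1
      push_cast
      ring
    have e2 : (K : ℝ) ^ (1 + 8 * δ) = K * (K : ℝ) ^ (8 * δ) := by
      rw [Real.rpow_add hKp, Real.rpow_one]
    rw [e1] at hfib
    rw [e2]
    have e3 : (0 : ℝ) ≤ C₆ * (K : ℝ) ^ (8 * δ) := by positivity
    have e4 := mul_le_mul_of_nonneg_right hJcard e3
    have e5 : (0 : ℝ) ≤ n * (K * (K : ℝ) ^ (8 * δ)) := by positivity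
    have e6 := mul_le_mul_of_nonneg_right (by linarith : 6 * C₇ * C₆ ≤ C) e5
    have e7 : (n : ℝ) * (6 * C₇ * K) * (C₆ * (K : ℝ) ^ (8 * δ)) =
      6 * C₇ * C₆ * (n * (K * (K : ℝ) ^ (8 * δ))) := by ring
    rw [mul_assoc C]
    linarith

end Pool.Agent.H45.D3
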