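import Pool.Agent.H81.D3.Targets

/-!
# Board d3n_modules, row TRC: translated circles
-/

set_option autoImplicit false

open Set

namespace Pool.Agent.H45.D3

open Pool.Agent.H83.G Pool.Agent.H81.D3
open Pool.Agent.H22.G4 (nv)
open scoped RealInnerProductSpace

theorem mem_Cz (V : Z 2) (η : E 2) :
    η ∈ Cz V ↔ V.1 + ⟪η, V.2.1⟫ + ‖η‖ ^ 2 * V.2.2 = 0 := by
  show (1 : ℝ) * V.1 + ⟪η, V.2.1⟫ + ‖η‖ ^ 2 * V.2.2 = 0 ↔ _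
  rw [one_mul]

theorem pf_TRC : T_TRC := by
  intro V b hV
  obtain ⟨W, hW⟩ : ∃ W : Z 2, W = (V.1 - ⟪b, V.2.1⟫ + V.2.2 * ‖b‖ ^ 2,
    V.2.1 - (2 * V.2.2) • b, V.2.2) := ⟨_, rfl⟩
  have h1 : W.1 = V.1 - ⟪b, V.2.1⟫ + V.2.2 * ‖b‖ ^ 2 := by rw [hW]
  have h2 : W.2.1 = V.2.1 - (2 * V.2.2) • b := by rw [hW]
  have h3 : W.2.2 = V.2.2 := by rw [hW]
  have hW0 : W ≠ 0 := by
    intro h0
    rw [h0] at h1 h2 h3
    have e3 : V.2.2 = 0 := h3.symm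
    have e2 : V.2.1 = 0 := by
      rw [e3] at h2
      simpa using h2.symm
    have e1 : V.1 = 0 := by
      rw [e3, e2] at h1
      simpa using h1.symm
    have e0 : V = 0 := Prod.ext e1 (Prod.ext e2 e3)
    rw [e0, norm_zero] at hV
    exact zero_ne_one hV
  have hWn : ‖W‖ ≠ 0 := norm_ne_zero_iff.2 hW0
  refine ⟨‖W‖⁻¹ • W, ?_, fun η hη => ?_⟩
  · rw [norm_smul, norm_inv, norm_norm, inv_mul_cancel₀ hWn]
  · rw [mem_Cz] at hη ⊢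
    have e1 : (‖W‖⁻¹ • W).1 = ‖W‖⁻¹ * W.1 := rfl
    have e2 : (‖W‖⁻¹ • W).2.1 = ‖W‖⁻¹ • W.2.1 := rfl
    have e3 : (‖W‖⁻¹ • W).2.2 = ‖W‖⁻¹ * W.2.2 := rfl
    rw [e1, e2, e3, inner_smul_right, h1, h2, h3, inner_sub_right, inner_smul_right,
      inner_add_left, inner_add_left, real_inner_self_eq_norm_sq, norm_add_sq_real,
      real_inner_comm b η]
    have key : V.1 - ⟪b, V.2.1⟫ + V.2.2 * ‖b‖ ^ 2 + (⟪b, V.2.1⟫ + ⟪η, V.2.1⟫ -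
        2 * V.2.2 * (‖b‖ ^ 2 + ⟪b, η⟫)) + (‖b‖ ^ 2 + 2 * ⟪b, η⟫ + ‖η‖ ^ 2) * V.2.2 = 0 := by
      linear_combination hη
    linear_combination ‖W‖⁻¹ * key

end Pool.Agent.H45.D3
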